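import Pool.Agent.Lib.MP_aa7e4d_lc.Interfaces

/-!
# Modules REOR1, REOR2: reorientation of a generic frame on a finite closed set
-/

set_option autoImplicit false

open FirstOrder FirstOrder.Language

namespace Pool.Agent.SFC.H36

variable {N : Type}

/-- The data of a reorientation of `F` on a finite set `Z`. -/
structure Reo (F : Frame N) (Z : Finset N) (f' : Fn → N → N) (ρ : N → ℕ) : Prop where
  out : ∀ i x, x ∉ Z → f' i x = F.f i x
  old : ∀ i x, x ∈ Z → F.f i x ∈ Z
  new : ∀ i x, x ∈ Z → f' i x ∈ Z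
  rank : ∀ i x, x ∈ Z → f' i x ≠ x → ρ (f' i x) < ρ x
  ok : ∀ i x, x ∈ Z → f' i x ≠ x → ok (F.kind x) i (F.kind (f' i x))
  inc : ∀ x l, x ∈ Z → l ∈ Z → F.kind x ≠ .L → F.kind l = .L →
    ((f' .p x = l ∨ f' .r0 l = x ∨ f' .r1 l = x) ↔
      (F.f .p x = l ∨ F.f .r0 l = x ∨ F.f .r1 l = x))
  rel : ∀ x y, x ∈ Z → y ∈ Z → F.kind x = .A → F.kind y = .B → ¬ F.R x y

/-- The new frame. -/
def nf (F : Frame N) (Z : Finset N) (f' : Fn → N → N) (ρ : N → ℕ) (h : Reo F Z f' ρ) :
    Frame N where
  kind := F.kind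
  f := f'
  R := F.R
  lt x y := (x ∈ Z ∧ y ∈ Z ∧ ρ x < ρ y) ∨ (x ∈ Z ∧ y ∉ Z) ∨ (x ∉ Z ∧ y ∉ Z ∧ F.lt x y)
  lt_irrefl x := by
    rintro (⟨_, _, h⟩ | ⟨h1, h2⟩ | ⟨_, _, h⟩)
    · exact lt_irrefl _ h
    · exact h2 h1
    · exact F.lt_irrefl x h
  lt_trans x y z := by
    rintro (⟨h1, h2, h3⟩ | ⟨h1, h2⟩ | ⟨h1, h2, h3⟩) (⟨k1, k2, k3⟩ | ⟨k1, k2⟩ | ⟨k1, k2, k3⟩)
    · exact Or.inl ⟨h1, k2, h3.trans k3⟩
    · exact Or.inr (Or.inl ⟨h1, k2⟩)
    · exact absurd h2 k1
    · exact absurd k1 h2
    · exact absurd k1 h2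
    · exact Or.inr (Or.inl ⟨h1, k2⟩)
    · exact absurd k1 h2
    · exact absurd k1 h2
    · exact Or.inr (Or.inr ⟨h1, k2, F.lt_trans _ _ _ h3 k3⟩)
  f_lt i x hne := by
    by_cases hx : x ∈ Z
    · exact Or.inl ⟨h.new i x hx, hx, h.rank i x hx hne⟩
    · have e := h.out i x hx
      rw [e] at hne ⊢
      by_cases hy : F.f i x ∈ Z
      · exact Or.inr (Or.inl ⟨hy, hx⟩)
      · exact Or.inr (Or.inr ⟨hy, hx, F.f_lt i x hne⟩)
  f_ok i x hne := by
    by_cases hx : x ∈ Z
    · exact h.ok i x hx hne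
    · have e := h.out i x hx
      rw [e] at hne ⊢
      exact F.f_ok i x hne
  R_symm := F.R_symm
  R_irrefl := F.R_irrefl

section

variable {F : Frame N} {Z : Finset N} {f' : Fn → N → N} {ρ : N → ℕ} (h : Reo F Z f' ρ)
include h

theorem nf_generic (hF : F.Generic) : (nf F Z f' ρ h).Generic := by
  classical
  intro S κ g U hg
  obtain ⟨v, hv, hk, hn, hs, hR⟩ := hF (S ∪ Z) κ g U
    (fun i y hi => ⟨Finset.mem_union_left _ (hg i y hi).1, (hg i y hi).2⟩)
  have hvS : v ∉ S := fun hc => hv (Finset.mem_union_left _ hc)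
  have hvZ : v ∉ Z := fun hc => hv (Finset.mem_union_right _ hc)
  refine ⟨v, hvS, hk, fun i hi => ?_, fun i y hi => ?_, fun u hu => ?_⟩
  · exact (h.out i v hvZ).trans (hn i hi)
  · exact (h.out i v hvZ).trans (hs i y hi)
  · exact hR u (Finset.mem_union_left _ hu)

theorem inc_iff (x l : N) : (nf F Z f' ρ h).Inc x l ↔ F.Inc x l := by
  show (F.kind x ≠ .L ∧ F.kind l = .L ∧ (f' .p x = l ∨ f' .r0 l = x ∨ f' .r1 l = x)) ↔
    (F.kind x ≠ .L ∧ F.kind l = .L ∧ (F.f .p x = l ∨ F.f .r0 l = x ∨ F.f .r1 l = x))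
  refine and_congr_right fun hx => and_congr_right fun hl => ?_
  by_cases hxZ : x ∈ Z
  · by_cases hlZ : l ∈ Z
    · exact h.inc x l hxZ hlZ hx hl
    · rw [h.out .r0 l hlZ, h.out .r1 l hlZ]
      have e1 : f' .p x ≠ l := fun hc => hlZ (hc ▸ h.new .p x hxZ)
      have e2 : F.f .p x ≠ l := fun hc => hlZ (hc ▸ h.old .p x hxZ)
      simp [e1, e2]
  · rw [h.out .p x hxZ]
    by_cases hlZ : l ∈ Z
    · have e1 : f' .r0 l ≠ x := fun hc => hxZ (hc ▸ h.new .r0 l hlZ)
      have e2 : f' .r1 l ≠ x := fun hc => hxZ (hc ▸ h.new .r1 l hlZ)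
      have e3 : F.f .r0 l ≠ x := fun hc => hxZ (hc ▸ h.old .r0 l hlZ)
      have e4 : F.f .r1 l ≠ x := fun hc => hxZ (hc ▸ h.old .r1 l hlZ)
      simp [e1, e2, e3, e4]
    · rw [h.out .r0 l hlZ, h.out .r1 l hlZ]

omit h in
/-- If `x` is in a closed set and `y` is not, the first alternative of adjacency implies the
second one. -/
theorem alt (G : Frame N) (Z : Finset N) (hZ : ∀ i x, x ∈ Z → G.f i x ∈ Z) (x y : N)
    (hx : x ∈ Z) (hy : y ∉ Z) (hk : G.kind x ≠ .L)
    (h1 : G.f .p x ≠ x ∧ G.Inc y (G.f .p x)) : G.f .p y ≠ y ∧ G.Inc x (G.f .p y) := by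
  obtain ⟨hne, hky, hkl, hi⟩ := h1
  have hl : G.f .p x ∈ Z := hZ .p x hx
  have e : G.f .p y = G.f .p x := by
    rcases hi with hi | hi | hi
    · exact hi
    · exact absurd (hi ▸ hZ .r0 _ hl) hy
    · exact absurd (hi ▸ hZ .r1 _ hl) hy
  rw [e]
  refine ⟨fun hc => hy (hc ▸ hl), hk, hkl, Or.inl rfl⟩

theorem adj_iff (x y : N) : (nf F Z f' ρ h).Adj x y ↔ F.Adj x y := by
  have hnew : ∀ i x, x ∈ Z → (nf F Z f' ρ h).f i x ∈ Z := h.new
  have key : ∀ x y, F.kind x ≠ .L → F.kind y ≠ .L → (x ∉ Z ∨ y ∉ Z) →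
      ((((nf F Z f' ρ h).f .p x ≠ x ∧ (nf F Z f' ρ h).Inc y ((nf F Z f' ρ h).f .p x)) ∨
        ((nf F Z f' ρ h).f .p y ≠ y ∧ (nf F Z f' ρ h).Inc x ((nf F Z f' ρ h).f .p y))) ↔
      ((F.f .p x ≠ x ∧ F.Inc y (F.f .p x)) ∨ (F.f .p y ≠ y ∧ F.Inc x (F.f .p y)))) := by
    intro x y hkx hky hxy
    by_cases hx : x ∈ Z
    · have hy : y ∉ Z := hxy.resolve_left (not_not.2 hx)
      have e1 : ((nf F Z f' ρ h).f .p y ≠ y ∧ (nf F Z f' ρ h).Inc x ((nf F Z f' ρ h).f .p y)) ↔
          (F.f .p y ≠ y ∧ F.Inc x (F.f .p y)) := by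
        have e : (nf F Z f' ρ h).f .p y = F.f .p y := h.out .p y hy
        rw [e, inc_iff h]
      constructor
      · rintro (h1 | h1)
        · exact Or.inr (e1.1 (alt (nf F Z f' ρ h) Z hnew x y hx hy hkx h1))
        · exact Or.inr (e1.1 h1)
      · rintro (h1 | h1)
        · exact Or.inr (e1.2 (alt F Z h.old x y hx hy hkx h1))
        · exact Or.inr (e1.2 h1)
    · have e1 : ((nf F Z f' ρ h).f .p x ≠ x ∧ (nf F Z f' ρ h).Inc y ((nf F Z f' ρ h).f .p x)) ↔
          (F.f .p x ≠ x ∧ F.Inc y (F.f .p x)) := by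
        have e : (nf F Z f' ρ h).f .p x = F.f .p x := h.out .p x hx
        rw [e, inc_iff h]
      by_cases hy : y ∈ Z
      · constructor
        · rintro (h1 | h1)
          · exact Or.inl (e1.1 h1)
          · exact Or.inl (e1.1 (alt (nf F Z f' ρ h) Z hnew y x hy hx hky h1))
        · rintro (h1 | h1)
          · exact Or.inl (e1.2 h1)
          · exact Or.inl (e1.2 (alt F Z h.old y x hy hx hky h1))
      · have e2 : ((nf F Z f' ρ h).f .p y ≠ y ∧
            (nf F Z f' ρ h).Inc x ((nf F Z f' ρ h).f .p y)) ↔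
            (F.f .p y ≠ y ∧ F.Inc x (F.f .p y)) := by
          have e : (nf F Z f' ρ h).f .p y = F.f .p y := h.out .p y hy
          rw [e, inc_iff h]
        rw [e1, e2]
  show (F.kind x = .A ∧ F.kind y = .B ∧ F.R x y ∧ _) ↔ (F.kind x = .A ∧ F.kind y = .B ∧ F.R x y ∧ _)
  refine and_congr_right fun hx => and_congr_right fun hy => and_congr_right fun hR => ?_
  refine key x y (by rw [hx]; decide) (by rw [hy]; decide) ?_
  by_contra hc
  push Not at hc
  exact h.rel x y hc.1 hc.2 hx hy hR

theorem nf_compat [Lang.Structure N] (hC : Compat F) : Compat (nf F Z f' ρ h) := by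
  refine ⟨hC.1, fun v => ?_, fun v => ?_⟩
  · rw [inc_iff h]; exact hC.2.1 v
  · rw [adj_iff h]; exact hC.2.2 v

end

theorem f_other (F : Frame N) (i : Fn) (x : N) (h : ∀ κ, ¬ ok (F.kind x) i κ) : F.f i x = x := by
  by_contra hne
  exact h _ (F.f_ok i x hne)

open Classical in
theorem reor1 : Reor1Statement := by
  intro N _ F hF hC b e hb he hfe hpb
  have hbe : b ≠ e := fun h => by rw [h, he] at hb; exact absurd hb (by decide)
  have hr0b : F.f .r0 b = b := f_other F .r0 b (fun κ => by rw [hb]; exact id)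
  have hr1b : F.f .r1 b = b := f_other F .r1 b (fun κ => by rw [hb]; exact id)
  let f' : Fn → N → N := fun i x =>
    if x = b then b else if x = e then (match i with | .r1 => b | _ => e) else F.f i x
  have fb : ∀ i, f' i b = b := fun i => if_pos rfl
  have fe : ∀ i, f' i e = (match i with | .r1 => b | _ => e) := fun i => by
    show (if e = b then b else if e = e then _ else _) = _
    rw [if_neg hbe.symm, if_pos rfl]
  have fo : ∀ i x, x ≠ b → x ≠ e → f' i x = F.f i x := fun i x h1 h2 => by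
    simp only [f']; rw [if_neg h1, if_neg h2]
  have hmem : ∀ x, x ∈ ({b, e} : Finset N) ↔ x = b ∨ x = e := by simp
  have hReo : Reo F {b, e} f' (fun x => if x = e then 1 else 0) := by
    refine ⟨?_, ?_, ?_, ?_, ?_, ?_, ?_⟩
    · intro i x hx
      rw [hmem] at hx
      push Not at hx
      exact fo i x hx.1 hx.2
    · intro i x hx
      rw [hmem] at hx ⊢
      rcases hx with rfl | rfl
      · cases i
        · exact Or.inr hpb
        · exact Or.inl hr0b
        · exact Or.inl hr1b
      · exact Or.inr (hfe i)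
    · intro i x hx
      rw [hmem] at hx ⊢
      rcases hx with rfl | rfl
      · exact Or.inl (fb i)
      · rw [fe]; cases i <;> simp
    · intro i x hx hne
      rw [hmem] at hx
      rcases hx with rfl | rfl
      · exact absurd (fb i) hne
      · rw [fe] at hne ⊢
        cases i
        · exact absurd rfl hne
        · exact absurd rfl hne
        · simp [hbe]
    · intro i x hx hne
      rw [hmem] at hx
      rcases hx with rfl | rfl
      · exact absurd (fb i) hne
      · rw [fe] at hne ⊢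
        cases i
        · exact absurd rfl hne
        · exact absurd rfl hne
        · simp only [he, hb]; trivial
    · intro x l hx hl hkx hkl
      rw [hmem] at hx hl
      rcases hx with rfl | rfl
      · rcases hl with rfl | rfl
        · exact absurd hkl hkx
        · rw [fe .r1]; simp [hpb]
      · exact absurd he hkx
    · intro x y hx hy hkx hky
      rw [hmem] at hx
      rcases hx with rfl | rfl
      · rw [hb] at hkx; exact absurd hkx (by decide)
      · rw [he] at hkx; exact absurd hkx (by decide)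
  exact ⟨nf F {b, e} f' _ hReo, nf_generic hReo hF, nf_compat hReo hC, rfl, rfl, fb,
    fun x h1 h2 i => fo i x h1 h2⟩

open Classical in
theorem reor2 : Reor2Statement := by
  intro N _ F hF hC a b e ha hb he hfe hpa hpb hR
  have hbe : b ≠ e := fun h => by rw [h, he] at hb; exact absurd hb (by decide)
  have hae : a ≠ e := fun h => by rw [h, he] at ha; exact absurd ha (by decide)
  have hab : a ≠ b := fun h => by rw [h, hb] at ha; exact absurd ha (by decide)
  have hr0b : F.f .r0 b = b := f_other F .r0 b (fun κ => by rw [hb]; exact id)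
  have hr1b : F.f .r1 b = b := f_other F .r1 b (fun κ => by rw [hb]; exact id)
  have hr0a : F.f .r0 a = a := f_other F .r0 a (fun κ => by rw [ha]; exact id)
  have hr1a : F.f .r1 a = a := f_other F .r1 a (fun κ => by rw [ha]; exact id)
  let f' : Fn → N → N := fun i x =>
    if x = a then a else if x = b then b else
      if x = e then (match i with | .r0 => a | .r1 => b | .p => e) else F.f i x
  have fa : ∀ i, f' i a = a := fun i => if_pos rfl
  have fb : ∀ i, f' i b = b := fun i => by
    show (if b = a then a else if b = b then b else _) = _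
    rw [if_neg hab.symm, if_pos rfl]
  have fe : ∀ i, f' i e = (match i with | .r0 => a | .r1 => b | .p => e) := fun i => by
    show (if e = a then a else if e = b then b else if e = e then _ else _) = _
    rw [if_neg hae.symm, if_neg hbe.symm, if_pos rfl]
  have fo : ∀ i x, x ≠ a → x ≠ b → x ≠ e → f' i x = F.f i x := fun i x h1 h2 h3 => by
    simp only [f']; rw [if_neg h1, if_neg h2, if_neg h3]
  have hmem : ∀ x, x ∈ ({a, b, e} : Finset N) ↔ x = a ∨ x = b ∨ x = e := by simp
  have hReo : Reo F {a, b, e} f' (fun x => if x = e then 1 else 0) := by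
    refine ⟨?_, ?_, ?_, ?_, ?_, ?_, ?_⟩
    · intro i x hx
      rw [hmem] at hx
      push Not at hx
      exact fo i x hx.1 hx.2.1 hx.2.2
    · intro i x hx
      rw [hmem] at hx ⊢
      rcases hx with rfl | rfl | rfl
      · cases i
        · exact Or.inr (Or.inr hpa)
        · exact Or.inl hr0a
        · exact Or.inl hr1a
      · cases i
        · exact Or.inr (Or.inr hpb)
        · exact Or.inr (Or.inl hr0b)
        · exact Or.inr (Or.inl hr1b)
      · exact Or.inr (Or.inr (hfe i))
    · intro i x hx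
      rw [hmem] at hx ⊢
      rcases hx with rfl | rfl | rfl
      · exact Or.inl (fa i)
      · exact Or.inr (Or.inl (fb i))
      · rw [fe]; cases i <;> simp
    · intro i x hx hne
      rw [hmem] at hx
      rcases hx with rfl | rfl | rfl
      · exact absurd (fa i) hne
      · exact absurd (fb i) hne
      · rw [fe] at hne ⊢
        cases i
        · exact absurd rfl hne
        · simp [hae]
        · simp [hbe]
    · intro i x hx hne
      rw [hmem] at hx
      rcases hx with rfl | rfl | rfl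
      · exact absurd (fa i) hne
      · exact absurd (fb i) hne
      · rw [fe] at hne ⊢
        cases i
        · exact absurd rfl hne
        · simp only [he, ha]; trivial
        · simp only [he, hb]; trivial
    · intro x l hx hl hkx hkl
      rw [hmem] at hx hl
      have hl' : l = e := by
        rcases hl with rfl | rfl | rfl
        · rw [ha] at hkl; exact absurd hkl (by decide)
        · rw [hb] at hkl; exact absurd hkl (by decide)
        · rfl
      subst hl'
      rcases hx with rfl | rfl | rfl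
      · rw [fe .r0]; simp [hpa]
      · rw [fe .r1]; simp [hpb]
      · exact absurd he hkx
    · intro x y hx hy hkx hky
      rw [hmem] at hx hy
      have hx' : x = a := by
        rcases hx with rfl | rfl | rfl
        · rfl
        · rw [hb] at hkx; exact absurd hkx (by decide)
        · rw [he] at hkx; exact absurd hkx (by decide)
      have hy' : y = b := by
        rcases hy with rfl | rfl | rfl
        · rw [ha] at hky; exact absurd hky (by decide)
        · rfl
        · rw [he] at hky; exact absurd hky (by decide)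
      rw [hx', hy']; exact hR
  exact ⟨nf F {a, b, e} f' _ hReo, nf_generic hReo hF, nf_compat hReo hC, rfl, rfl, fa, fb,
    fun x h1 h2 h3 i => fo i x h1 h2 h3⟩

end Pool.Agent.SFC.H36
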